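import Pool.Agent.helper95.PY2.Spec

/-! Row CS of PY2 (Cauchy in the cells). -/

set_option autoImplicit false

open Finset

namespace Pool.Agent.PY2

theorem CS_norm {p : ℕ} [Fact p.Prime] (χ : MulChar (ZMod p) ℂ) (x : ZMod p) : ‖χ x‖ ≤ 1 :=
  DirichletCharacter.norm_le_one χ x

theorem CS_diag {p : ℕ} [Fact p.Prime] (χ : MulChar (ZMod p) ℂ) (N : ℕ) (b : ZMod p) :
    ‖Gc χ N b b‖ ≤ N := by
  unfold Gc
  refine (norm_sum_le _ _).trans ?_
  calc ∑ n ∈ range N, ‖χ ((n : ZMod p) + b) * (starRingEnd ℂ) (χ ((n : ZMod p) + b))‖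
      ≤ ∑ _n ∈ range N, (1 : ℝ) := by
        apply Finset.sum_le_sum
        intro n _
        rw [norm_mul, RCLike.norm_conj]
        exact mul_le_one₀ (CS_norm χ _) (norm_nonneg _) (CS_norm χ _)
    _ = N := by simp

theorem CS_swap {p : ℕ} (χ : MulChar (ZMod p) ℂ) (N : ℕ) (b b' : ZMod p) :
    ‖Gc χ N b b'‖ = ‖Gc χ N b' b‖ := by
  have h : Gc χ N b b' = (starRingEnd ℂ) (Gc χ N b' b) := by
    unfold Gc
    rw [map_sum]
    apply Finset.sum_congr rfl
    intro n _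
    rw [map_mul, Complex.conj_conj, mul_comm]
  rw [h, RCLike.norm_conj]

theorem CS_split {p : ℕ} [Fact p.Prime] (g : ZMod p → ZMod p → ℝ) (hs : ∀ b b', g b b' = g b' b)
    (S : Finset (ZMod p)) :
    ∑ b ∈ S, ∑ b' ∈ S, g b b' = ∑ b ∈ S, g b b +
      2 * ∑ z ∈ (S ×ˢ S).filter (fun z => z.1.val < z.2.val), g z.1 z.2 := by
  have h1 : ∀ b b' : ZMod p, g b b' = (if b = b' then g b b' else 0) +
      ((if b.val < b'.val then g b b' else 0) + (if b'.val < b.val then g b b' else 0)) := by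
    intro b b'
    rcases lt_trichotomy b.val b'.val with h | h | h
    · have hne : b ≠ b' := fun e => by rw [e] at h; exact lt_irrefl _ h
      rw [if_neg hne, if_pos h, if_neg (not_lt.2 h.le)]
      ring
    · have he : b = b' := ZMod.val_injective p h
      rw [if_pos he, if_neg (by rw [h]; exact lt_irrefl _), if_neg (by rw [h]; exact lt_irrefl _)]
      ring
    · have hne : b ≠ b' := fun e => by rw [e] at h; exact lt_irrefl _ h
      rw [if_neg hne, if_pos h, if_neg (not_lt.2 h.le)]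
      ring
  have h2 : ∑ b ∈ S, ∑ b' ∈ S, (if b.val < b'.val then g b b' else 0) =
      ∑ z ∈ (S ×ˢ S).filter (fun z => z.1.val < z.2.val), g z.1 z.2 := by
    rw [Finset.sum_filter, Finset.sum_product]
  have h3 : ∑ b ∈ S, ∑ b' ∈ S, (if b'.val < b.val then g b b' else 0) =
      ∑ b ∈ S, ∑ b' ∈ S, (if b.val < b'.val then g b b' else 0) := by
    rw [Finset.sum_comm]
    apply Finset.sum_congr rfl
    intro b _
    apply Finset.sum_congr rfl
    intro b' _
    rw [hs b' b]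
  calc ∑ b ∈ S, ∑ b' ∈ S, g b b'
      = ∑ b ∈ S, ∑ b' ∈ S, ((if b = b' then g b b' else 0) +
      ((if b.val < b'.val then g b b' else 0) + (if b'.val < b.val then g b b' else 0))) :=
        Finset.sum_congr rfl fun b _ => Finset.sum_congr rfl fun b' _ => h1 b b'
    _ = ∑ b ∈ S, ∑ b' ∈ S, (if b = b' then g b b' else 0) +
      (∑ b ∈ S, ∑ b' ∈ S, (if b.val < b'.val then g b b' else 0) +
        ∑ b ∈ S, ∑ b' ∈ S, (if b'.val < b.val then g b b' else 0)) := by
        simp only [Finset.sum_add_distrib]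
    _ = _ := by
        rw [h3, h2]
        have h4 : ∑ b ∈ S, ∑ b' ∈ S, (if b = b' then g b b' else 0) = ∑ b ∈ S, g b b := by
          apply Finset.sum_congr rfl
          intro b hb
          rw [Finset.sum_ite_eq, if_pos hb]
        rw [h4]
        ring

theorem CS_cell {p : ℕ} [Fact p.Prime] (χ : MulChar (ZMod p) ℂ) (N L j : ℕ)
    (B : Finset (ZMod p)) (β : ZMod p → ℂ) (hβ : ∀ b, ‖β b‖ ≤ 1) :
    ∑ n ∈ range N, ‖∑ b ∈ cl B L j, β b * χ ((n : ZMod p) + b)‖ ^ 2 ≤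
      N * (cl B L j).card + 2 * ∑ z ∈ pr B L j, ‖Gc χ N z.1 z.2‖ := by
  have h1 : ((∑ n ∈ range N, ‖∑ b ∈ cl B L j, β b * χ ((n : ZMod p) + b)‖ ^ 2 : ℝ) : ℂ) =
      ∑ b ∈ cl B L j, ∑ b' ∈ cl B L j, β b * (starRingEnd ℂ) (β b') * Gc χ N b b' := by
    rw [Complex.ofReal_sum]
    have h2 : ∀ n ∈ range N, ((‖∑ b ∈ cl B L j, β b * χ ((n : ZMod p) + b)‖ ^ 2 : ℝ) : ℂ) =
        ∑ b ∈ cl B L j, ∑ b' ∈ cl B L j, β b * (starRingEnd ℂ) (β b') *
          (χ ((n : ZMod p) + b) * (starRingEnd ℂ) (χ ((n : ZMod p) + b'))) := by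
      intro n _
      rw [Complex.ofReal_pow, ← Complex.mul_conj', map_sum, Finset.sum_mul_sum]
      apply Finset.sum_congr rfl
      intro b _
      apply Finset.sum_congr rfl
      intro b' _
      rw [map_mul]
      ring
    rw [Finset.sum_congr rfl h2, Finset.sum_comm]
    apply Finset.sum_congr rfl
    intro b _
    rw [Finset.sum_comm]
    apply Finset.sum_congr rfl
    intro b' _
    unfold Gc
    rw [Finset.mul_sum]
  have h3 : ∑ n ∈ range N, ‖∑ b ∈ cl B L j, β b * χ ((n : ZMod p) + b)‖ ^ 2 ≤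
      ∑ b ∈ cl B L j, ∑ b' ∈ cl B L j, ‖Gc χ N b b'‖ := by
    have h4 : ∑ n ∈ range N, ‖∑ b ∈ cl B L j, β b * χ ((n : ZMod p) + b)‖ ^ 2 =
        ‖((∑ n ∈ range N, ‖∑ b ∈ cl B L j, β b * χ ((n : ZMod p) + b)‖ ^ 2 : ℝ) : ℂ)‖ := by
      rw [Complex.norm_real, Real.norm_of_nonneg]
      exact Finset.sum_nonneg fun _ _ => sq_nonneg _
    rw [h4, h1]
    refine (norm_sum_le _ _).trans (Finset.sum_le_sum fun b _ => ?_)
    refine (norm_sum_le _ _).trans (Finset.sum_le_sum fun b' _ => ?_)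
    rw [norm_mul, norm_mul, RCLike.norm_conj]
    have h5 : ‖β b‖ * ‖β b'‖ ≤ 1 := mul_le_one₀ (hβ b) (norm_nonneg _) (hβ b')
    calc ‖β b‖ * ‖β b'‖ * ‖Gc χ N b b'‖ ≤ 1 * ‖Gc χ N b b'‖ :=
          mul_le_mul_of_nonneg_right h5 (norm_nonneg _)
      _ = ‖Gc χ N b b'‖ := one_mul _
  refine h3.trans ?_
  rw [CS_split (fun b b' => ‖Gc χ N b b'‖) (fun b b' => CS_swap χ N b b')]
  apply add_le_add
  · calc ∑ b ∈ cl B L j, ‖Gc χ N b b‖ ≤ ∑ _b ∈ cl B L j, (N : ℝ) :=
          Finset.sum_le_sum fun b _ => CS_diag χ N b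
      _ = N * (cl B L j).card := by
          rw [Finset.sum_const, nsmul_eq_mul, mul_comm]
  · exact le_refl _

theorem CS_cells {p : ℕ} [Fact p.Prime] {M : Type*} [AddCommMonoid M] (L : ℕ)
    (B : Finset (ZMod p)) (f : ZMod p → M) :
    ∑ b ∈ B, f b = ∑ j ∈ range p, ∑ b ∈ cl B L j, f b := by
  unfold cl
  symm
  apply Finset.sum_fiberwise_of_maps_to
  intro b _
  rw [Finset.mem_range]
  exact lt_of_le_of_lt (Nat.div_le_self _ _) (ZMod.val_lt b)

theorem CS : CS_stmt := by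
  intro p _ χ N L E B β _ hE hβ hcell
  have hp : 0 < p := (Fact.out : p.Prime).pos
  set D : ℕ → ℝ := fun j => ((cl B L j).card : ℝ) with hD
  set S : ℕ → ℝ := fun j => ∑ n ∈ range N, ‖∑ b ∈ cl B L j, β b * χ ((n : ZMod p) + b)‖ with hS
  set G : ℕ → ℝ := fun j => ∑ z ∈ pr B L j, ‖Gc χ N z.1 z.2‖ with hG
  have hD0 : ∀ j, 0 ≤ D j := fun j => Nat.cast_nonneg _
  have hG0 : ∀ j, 0 ≤ G j := fun j => Finset.sum_nonneg fun _ _ => norm_nonneg _
  have hDsum : ∑ j ∈ range p, D j = B.card := by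
    have h := CS_cells L B (fun _ => (1 : ℝ))
    simp only [Finset.sum_const, nsmul_eq_mul, mul_one] at h
    exact h.symm
  have h1 : ∑ n ∈ range N, ‖∑ b ∈ B, β b * χ ((n : ZMod p) + b)‖ ≤ ∑ j ∈ range p, S j := by
    rw [hS]
    simp only
    rw [Finset.sum_comm]
    apply Finset.sum_le_sum
    intro n _
    rw [CS_cells L B (fun b => β b * χ ((n : ZMod p) + b))]
    exact norm_sum_le _ _
  have h0 : 0 ≤ ∑ n ∈ range N, ‖∑ b ∈ B, β b * χ ((n : ZMod p) + b)‖ :=
    Finset.sum_nonneg fun _ _ => norm_nonneg _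
  have h2 : ∀ j, S j ^ 2 ≤ N * (N * D j + 2 * G j) := by
    intro j
    have h3 : S j ^ 2 ≤ N * ∑ n ∈ range N, ‖∑ b ∈ cl B L j, β b * χ ((n : ZMod p) + b)‖ ^ 2 := by
      have h4 := sq_sum_le_card_mul_sum_sq (s := range N)
        (f := fun n => ‖∑ b ∈ cl B L j, β b * χ ((n : ZMod p) + b)‖)
      rw [Finset.card_range] at h4
      exact h4
    exact h3.trans (mul_le_mul_of_nonneg_left (CS_cell χ N L j B β hβ) (Nat.cast_nonneg _))
  have h5 : (∑ j ∈ range p, S j) ^ 2 ≤ (∑ j ∈ range p, D j) *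
      ∑ j ∈ range p, (N : ℝ) * (N * (D j / E) + 2 * ((D j)⁻¹ * G j)) := by
    apply Finset.sum_sq_le_sum_mul_sum_of_sq_le_mul
    · intro j _
      exact hD0 j
    · intro j _
      have := hD0 j
      have := hG0 j
      positivity
    · intro j _
      rcases hcell j with h | h
      · have h6 : S j = 0 := by
          rw [hS]
          simp only [h, Finset.sum_empty, norm_zero, Finset.sum_const_zero]
        have h7 : D j = 0 := by
          rw [hD]
          simp only [h, Finset.card_empty, Nat.cast_zero]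
        rw [h6, h7]
        simp
      · have h8 : E ≤ D j := h
        have h9 : 0 < D j := lt_of_lt_of_le hE h8
        have h10 : 1 ≤ D j / E := (one_le_div hE).2 h8
        have h11 : N * (N * D j + 2 * G j) ≤
            D j * ((N : ℝ) * (N * (D j / E) + 2 * ((D j)⁻¹ * G j))) := by
          have h12 : D j * ((N : ℝ) * (N * (D j / E) + 2 * ((D j)⁻¹ * G j))) =
              N * (N * (D j * (D j / E)) + 2 * ((D j * (D j)⁻¹) * G j)) := by ring
          rw [h12, mul_inv_cancel₀ h9.ne', one_mul]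
          apply mul_le_mul_of_nonneg_left _ (Nat.cast_nonneg _)
          apply add_le_add_left
          apply mul_le_mul_of_nonneg_left _ (Nat.cast_nonneg _)
          nlinarith
        exact (h2 j).trans h11
  have h6 : ∑ j ∈ range p, (N : ℝ) * (N * (D j / E) + 2 * ((D j)⁻¹ * G j)) =
      N * (N * B.card / E + 2 * ∑ j ∈ range p, (D j)⁻¹ * G j) := by
    rw [← Finset.mul_sum, Finset.sum_add_distrib, ← Finset.mul_sum, ← Finset.mul_sum,
      ← Finset.sum_div, hDsum, mul_div_assoc]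
  rw [h6, hDsum, ← mul_assoc] at h5
  exact (pow_le_pow_left₀ h0 h1 2).trans h5

end Pool.Agent.PY2
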